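import Pool.Agent.N798.W.Stm
import Pool.Agent.N798.H.Fin

set_option autoImplicit false

/-! Project HW: prime values of almost all multiples along arbitrary sequences and arbitrary sets of indices. -/

namespace Pool.Agent.N798.HW

open Finset MeasureTheory Filter Topology
open scoped ENNReal
open Pool.Agent.N798.T
open Pool.Agent.N798.HS

/-- the indices in `W n` which are larger than `√n` -/
def V (W : ℕ → Finset ℕ) (n : ℕ) : Finset ℕ := (W n).filter fun j => Nat.sqrt n < j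

lemma oneW (h : S_SD) (u : ℕ → ℕ) (hu : Sq u) (W : ℕ → Finset ℕ) (hW : ∀ n, W n ⊆ Icc 1 n) (b : ℤ) (s : ℝ) (K : ℕ) :
    ∃ (D : ℝ) (N0 : ℕ), 0 ≤ D ∧ 2 ≤ N0 ∧ ∀ n : ℕ, N0 ≤ n → ∀ w : ℕ → ℂ, (∀ m, ‖w m‖ ≤ 1) →
      ∫⁻ x in Set.Icc (0 : ℝ) 1, ‖∑ j ∈ V W n, w j * (Fp b s x (u j) - Mp s x (u j))‖ₑ ^ 2 ≤
        ENNReal.ofReal (D * n ^ 2 / (Real.log n) ^ K) := by
  classical
  obtain ⟨D, N0, hD, hN0, h1⟩ := h u hu b s K
  refine ⟨D, N0, hD, hN0, fun n hn w hw => ?_⟩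
  have hsub : V W n ⊆ Ioc (Nat.sqrt n) n := by
    intro j hj
    unfold V at hj
    rw [mem_filter] at hj
    have := mem_Icc.1 (hW n hj.1)
    rw [mem_Ioc]
    omega
  refine le_trans (le_of_eq ?_) (h1 n hn (fun j => if j ∈ V W n then w j else 0) fun m => ?_)
  · refine lintegral_congr fun x => ?_
    congr 2
    rw [← Finset.sum_subset hsub]
    · refine Finset.sum_congr rfl fun j hj => ?_
      simp only [if_pos hj]
    · intro j _ hj
      simp only [if_neg hj, zero_mul]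
  · split_ifs
    · exact hw m
    · rw [norm_zero]; exact zero_le_one

/-- the deviation, in the coordinates of the cube -/
noncomputable def GwW {k : ℕ} (u : Fin k → ℕ → ℕ) (W : ℕ → Finset ℕ) (b : Fin k → ℤ) (s : ℕ → ℝ) (ω : Fin k → ℝ)
    (n : ℕ) : ℂ :=
  ∑ j ∈ V W n, (∏ i, Fp (b i) (s i) (ω i) (u i j) - ∏ i : Fin k, Mp (s i) (ω i) (u i j))

lemma GwW_meas {k : ℕ} (u : Fin k → ℕ → ℕ) (W : ℕ → Finset ℕ) (b : Fin k → ℤ) (s : ℕ → ℝ) (n : ℕ) :
    Measurable fun ω => GwW u W b s ω n := by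
  unfold GwW
  refine Finset.measurable_fun_sum _ fun j _ => Measurable.sub ?_ ?_
  · exact Finset.measurable_fun_prod _ fun i _ => (Fp_meas _ _ _).comp (measurable_pi_apply i)
  · exact Finset.measurable_fun_prod _ fun i _ => (Mp_meas _ _).comp (measurable_pi_apply i)

lemma meanSqW (hsd : S_SD) (hprd : S_PRD) {k : ℕ} (u : Fin k → ℕ → ℕ) (hu : ∀ i, Sq (u i)) (W : ℕ → Finset ℕ)
    (hW : ∀ n, W n ⊆ Icc 1 n)
    (b : Fin k → ℤ) (s : ℕ → ℝ) : ∀ K : ℕ, ∃ (D : ℝ) (N0 : ℕ), 0 ≤ D ∧ 2 ≤ N0 ∧ ∀ n : ℕ, N0 ≤ n →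
      ∫⁻ ω, ‖GwW u W b s ω n‖ₑ ^ 2 ∂(mu k) ≤ ENNReal.ofReal (D * n ^ 2 / (Real.log n) ^ K) := by
  intro K
  choose D N0 hD hN0 h1 using fun i : Fin k => oneW hsd (u i) (hu i) W hW (b i) (s i) K
  choose n1 hn1 using fun i : Fin k => Mp_le (hu i) (s i)
  have hDt : 0 ≤ ∑ i, D i := Finset.sum_nonneg fun i _ => hD i
  refine ⟨(k : ℝ) ^ 2 * ∑ i, D i, 2 + ∑ i, (N0 i + n1 i), by positivity, by omega, fun n hn => ?_⟩
  have hNi : ∀ i, N0 i + n1 i ≤ n := fun i =>
    (Finset.single_le_sum (f := fun i => N0 i + n1 i) (fun _ _ => Nat.zero_le _) (Finset.mem_univ i)).trans (by omega)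
  have hn2 : 2 ≤ n := by omega
  have hlog : 0 ≤ Real.log n := Real.log_nonneg (by exact_mod_cast (by omega : 1 ≤ n))
  have h2 := hprd k (V W n) (fun i x j => Fp (b i) (s i) x (u i j))
    (fun i x j => Mp (s i) x (u i j)) (fun i j => Fp_meas _ _ _) (fun i j => Mp_meas _ _)
    (fun i x _ j _ => Fp_le _ _ _ _) (fun i x hx j hj => hn1 i n ((Nat.le_add_left _ _).trans (hNi i)) _
      (by unfold V at hj; exact (mem_filter.1 hj).2) x hx) (ENNReal.ofReal ((∑ i, D i) * n ^ 2 / (Real.log n) ^ K)) (by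
    intro i w hw
    refine (h1 i n ((Nat.le_add_right _ _).trans (hNi i)) w hw).trans (ENNReal.ofReal_le_ofReal ?_)
    refine div_le_div_of_nonneg_right (mul_le_mul_of_nonneg_right ?_ (by positivity)) (by positivity)
    exact Finset.single_le_sum (fun i _ => hD i) (Finset.mem_univ i))
  refine h2.trans (le_of_eq ?_)
  rw [show ((k : ℝ≥0∞)) ^ 2 = ENNReal.ofReal ((k : ℝ) ^ 2) by
    rw [ENNReal.ofReal_pow (Nat.cast_nonneg _), ENNReal.ofReal_natCast], ← ENNReal.ofReal_mul (by positivity)]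
  congr 1
  ring

/-- the number of `j ∈ W n` for which all `⌊α_i u_i(j)⌋ + b_i` are primes -/
noncomputable def cnt {k : ℕ} (u : Fin k → ℕ → ℕ) (W : ℕ → Finset ℕ) (b : Fin k → ℤ) (α : Fin k → ℝ) (n : ℕ) : ℕ :=
  #((W n).filter fun j : ℕ => ∀ i, (⌊α i * (u i j : ℝ)⌋ + b i).toNat.Prime)

/-- the main term -/
noncomputable def mainW {k : ℕ} (u : Fin k → ℕ → ℕ) (W : ℕ → Finset ℕ) (α : Fin k → ℝ) (n : ℕ) : ℝ :=
  ∑ j ∈ V W n, ∏ i, 1 / Real.log (α i * u i j)

/-- the deviation in terms of `α` -/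
noncomputable def GaW {k : ℕ} (u : Fin k → ℕ → ℕ) (W : ℕ → Finset ℕ) (b : Fin k → ℤ) (α : Fin k → ℝ) (n : ℕ) : ℂ :=
  ∑ j ∈ V W n, ((∏ i, if (⌊α i * (u i j : ℝ)⌋ + b i).toNat.Prime then (1 : ℂ) else 0) -
    ∏ i, ((1 / Real.log (α i * u i j) : ℝ) : ℂ))

lemma ae_GaW (hsd : S_SD) (hprd : S_PRD) (hex : S_EX) {k : ℕ} (u : Fin k → ℕ → ℕ) (hu : ∀ i, Sq (u i))
    (W : ℕ → Finset ℕ) (hW : ∀ n, W n ⊆ Icc 1 n) (b : Fin k → ℤ) :
    ∀ᵐ α ∂((volume : Measure (Fin k → ℝ)).restrict {α | ∀ i, 0 < α i}), ∀ L : ℕ,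
      Thin fun n => (n : ℝ) / (Real.log n) ^ L < ‖GaW u W b α n‖ := by
  classical
  refine Pool.Agent.N262.T.cu k _ fun s => ?_
  have h1 := hex (Fin k → ℝ) (mu k) (fun ω n => GwW u W b s ω n) (GwW_meas u W b s)
    (meanSqW hsd hprd u hu W hW b s)
  filter_upwards [h1, mu_ae k] with ω hω hω1 L K
  have h2 := hω L K
  have e1 : ∀ i : Fin k, al s k ω i = Real.exp (s i + ω i) := by
    intro i
    unfold al
    rw [dif_pos i.2, clamp_id (hω1 i)]
  have e2 : ∀ n, GaW u W b (fun j : Fin k => al s k ω j) n = GwW u W b s ω n := by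
    intro n
    unfold GaW GwW Fp Mp vl
    simp only [e1]
  simp only [e2]
  exact h2

lemma cnt_diff {k : ℕ} (u : Fin k → ℕ → ℕ) (W : ℕ → Finset ℕ) (hW : ∀ n, W n ⊆ Icc 1 n) (b : Fin k → ℤ)
    (α : Fin k → ℝ) (n : ℕ) :
    |(cnt u W b α n : ℝ) - mainW u W α n| ≤ ‖GaW u W b α n‖ + 2 * Nat.sqrt n := by
  classical
  have e1 : GaW u W b α n = ((#((V W n).filter fun j : ℕ =>
      ∀ i, (⌊α i * (u i j : ℝ)⌋ + b i).toNat.Prime) - mainW u W α n : ℝ) : ℂ) := by
    unfold GaW mainW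
    rw [Finset.sum_sub_distrib, ← Finset.sum_boole]
    push_cast
    congr 1
    refine Finset.sum_congr rfl fun j _ => ?_
    by_cases h : ∀ i, (⌊α i * (u i j : ℝ)⌋ + b i).toNat.Prime
    · rw [if_pos h, Finset.prod_eq_one fun i _ => if_pos (h i)]
      simp
    · rw [if_neg h]
      push Not at h
      obtain ⟨i, hi⟩ := h
      exact Finset.prod_eq_zero (Finset.mem_univ i) (if_neg hi)
  rw [e1, Complex.norm_real, Real.norm_eq_abs]
  set A := (V W n).filter fun j : ℕ => ∀ i, (⌊α i * (u i j : ℝ)⌋ + b i).toNat.Prime with hA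
  set B := (W n).filter fun j : ℕ => ∀ i, (⌊α i * (u i j : ℝ)⌋ + b i).toNat.Prime with hB
  have hAB : A ⊆ B := by
    intro j hj
    rw [hA, mem_filter] at hj
    unfold V at hj
    rw [hB, mem_filter]
    exact ⟨(mem_filter.1 hj.1).1, hj.2⟩
  have h1 : #B ≤ #A + 2 * Nat.sqrt n := by
    have h2 : B ⊆ A ∪ Icc 1 (Nat.sqrt n) := by
      intro j hj
      rw [hB, mem_filter] at hj
      rw [mem_union, hA, mem_filter, mem_Icc]
      unfold V
      rw [mem_filter]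
      have h3 := mem_Icc.1 (hW n hj.1)
      by_cases h4 : Nat.sqrt n < j
      · exact Or.inl ⟨⟨hj.1, h4⟩, hj.2⟩
      · exact Or.inr ⟨h3.1, by omega⟩
    refine (Finset.card_le_card h2).trans ((Finset.card_union_le _ _).trans ?_)
    rw [Nat.card_Icc]
    omega
  have h2 : (#A : ℝ) ≤ #B := by exact_mod_cast Finset.card_le_card hAB
  have h3 : (#B : ℝ) ≤ #A + 2 * Nat.sqrt n := by exact_mod_cast h1
  have h4 : (cnt u W b α n : ℝ) = #B := rfl
  rw [h4]
  have e2 : (#B : ℝ) - mainW u W α n = (#A - mainW u W α n) + (#B - #A) := by ring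
  rw [e2]
  refine (abs_add_le _ _).trans (add_le_add le_rfl ?_)
  rw [abs_of_nonneg (by linarith)]
  linarith

/-- **The theorem.** -/
theorem finW (hsd : S_SD) (hprd : S_PRD) (hex : S_EX) (hmw : S_MW) {k : ℕ} (u : Fin k → ℕ → ℕ)
    (hu : ∀ i, Sq (u i)) (W : ℕ → Finset ℕ) (hW : ∀ n, W n ⊆ Icc 1 n) :
    ∀ᵐ α : Fin k → ℝ, (∀ i, 0 < α i) → ∀ b : Fin k → ℤ,
      (∀ L : ℕ, Thin fun n => (n : ℝ) / (Real.log n) ^ L < |(cnt u W b α n : ℝ) - mainW u W α n|) ∧
      ∀ ε : ℝ, 0 < ε → ∀ C : ℕ, Thin fun n => (n : ℝ) / (Real.log n) ^ C ≤ #(W n) ∧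
        ε < |(cnt u W b α n : ℝ) / (#(W n) / (Real.log n) ^ k) - 1| := by
  have hm : MeasurableSet {α : Fin k → ℝ | ∀ i, 0 < α i} := by
    rw [Set.ofPred_forall]
    exact MeasurableSet.iInter fun i => measurableSet_lt measurable_const (measurable_pi_apply i)
  have h1 := ae_all_iff.2 fun b : Fin k → ℤ => ae_GaW hsd hprd hex u hu W hW b
  rw [ae_restrict_iff' hm] at h1
  filter_upwards [h1] with α hα hpos b
  have h2 := hα hpos b
  have hlog : Tendsto (fun n : ℕ => Real.log (n : ℝ)) atTop atTop :=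
    Real.tendsto_log_atTop.comp tendsto_natCast_atTop_atTop
  have hA : ∀ L : ℕ, Thin fun n => (n : ℝ) / (Real.log n) ^ L < |(cnt u W b α n : ℝ) - mainW u W α n| := by
    intro L
    refine thin_mono ?_ (h2 (L + 1))
    have h3 : Tendsto (fun n : ℕ => 2 * (Real.sqrt n * (Real.log n) ^ (L + 1) / n)) atTop (𝓝 0) := by
      have e0 : Tendsto (fun x : ℝ => (Real.log x) ^ (L + 1) / x ^ (1 / 2 : ℝ)) atTop (𝓝 0) := by
        have := (isLittleO_log_rpow_rpow_atTop (s := (1 / 2 : ℝ)) ((L + 1 : ℕ) : ℝ)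
          (by norm_num)).tendsto_div_nhds_zero
        refine this.congr fun x => ?_
        rw [Real.rpow_natCast]
      have e1 := (e0.comp tendsto_natCast_atTop_atTop).const_mul (2 : ℝ)
      rw [mul_zero] at e1
      refine e1.congr' ?_
      filter_upwards [eventually_gt_atTop 0] with n hn
      have hn' : (0:ℝ) < n := by exact_mod_cast hn
      simp only [Function.comp_apply]
      rw [← Real.sqrt_eq_rpow]
      have : (n : ℝ) = √n * √n := (Real.mul_self_sqrt hn'.le).symm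
      have hs : 0 < √(n:ℝ) := Real.sqrt_pos.2 hn'
      field_simp
      rw [Real.sq_sqrt hn'.le]
    filter_upwards [h3.eventually_le_const (show (0:ℝ) < 1 by norm_num), hlog.eventually_ge_atTop 2,
      eventually_gt_atTop 0] with n hn1 hn2 hn3 hn4
    have hn' : (0:ℝ) < n := by exact_mod_cast hn3
    have hl : 0 < Real.log (n:ℝ) := by linarith
    have h5 := cnt_diff u W hW b α n
    have h6 : (Nat.sqrt n : ℝ) ≤ √(n:ℝ) := Real.nat_sqrt_le_real_sqrt
    have h7 : 2 * √(n:ℝ) ≤ n / (Real.log n) ^ (L + 1) := by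
      rw [le_div_iff₀ (by positivity)]
      have : 2 * (√(n:ℝ) * (Real.log n) ^ (L + 1) / n) * n ≤ 1 * n := mul_le_mul_of_nonneg_right hn1 hn'.le
      have e : 2 * (√(n:ℝ) * (Real.log n) ^ (L + 1) / n) * n = 2 * √(n:ℝ) * (Real.log n) ^ (L + 1) := by
        field_simp
      linarith
    have h8 : 2 * (n / (Real.log n) ^ (L + 1)) ≤ (n:ℝ) / (Real.log n) ^ L := by
      rw [pow_succ, ← div_div, mul_div_assoc', div_le_iff₀ hl]
      have : 0 ≤ (n:ℝ) / (Real.log n) ^ L := by positivity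
      nlinarith
    linarith
  refine ⟨hA, fun ε hε C => ?_⟩
  refine thin_mono ?_ (hA (k + C + 1))
  obtain ⟨n0, h3⟩ := hmw k u hu α hpos (ε / 2) (by positivity) C
  filter_upwards [eventually_ge_atTop n0, hlog.eventually_ge_atTop (4 / ε), hlog.eventually_ge_atTop 1,
    eventually_gt_atTop 0] with n hn1 hn2 hn3 hn4 hn5
  obtain ⟨hn6, hn7⟩ := hn5
  by_contra h6
  push Not at h6
  have h9 := h3 n hn1 (W n) (hW n) hn6
  have e0 : (∑ j ∈ (W n).filter (fun j => Nat.sqrt n < j), ∏ i, 1 / Real.log (α i * u i j)) = mainW u W α n := rfl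
  rw [e0] at h9
  have hn' : (0:ℝ) < n := by exact_mod_cast hn4
  have hl : 0 < Real.log (n:ℝ) := by linarith
  have hWp : (0:ℝ) < #(W n) := lt_of_lt_of_le (by positivity) hn6
  have e1 : (cnt u W b α n : ℝ) / (#(W n) / (Real.log n) ^ k) - 1 =
      ((cnt u W b α n : ℝ) - mainW u W α n) * ((Real.log n) ^ k / #(W n)) +
        ((mainW u W α n) / (#(W n) / (Real.log n) ^ k) - 1) := by
    field_simp
    ring
  rw [e1] at hn7
  have h7 : |((cnt u W b α n : ℝ) - mainW u W α n) * ((Real.log n) ^ k / #(W n))| ≤ ε / 4 := by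
    rw [abs_mul, abs_of_nonneg (by positivity : 0 ≤ (Real.log (n:ℝ)) ^ k / #(W n))]
    calc _ ≤ n / (Real.log n) ^ (k + C + 1) * ((Real.log n) ^ k / #(W n)) :=
          mul_le_mul_of_nonneg_right h6 (by positivity)
      _ = n / (Real.log n) ^ C / #(W n) * (1 / Real.log n) := by
          rw [pow_succ, pow_add]
          field_simp
      _ ≤ 1 * (1 / Real.log n) := by
          refine mul_le_mul_of_nonneg_right ?_ (by positivity)
          rw [div_le_one hWp]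
          exact hn6
      _ ≤ ε / 4 := by
          rw [one_mul, div_le_iff₀ hl]
          rw [div_le_iff₀ hε] at hn2
          linarith
  have h8 := abs_add_le (((cnt u W b α n : ℝ) - mainW u W α n) * ((Real.log n) ^ k / #(W n)))
    ((mainW u W α n) / (#(W n) / (Real.log n) ^ k) - 1)
  linarith

end Pool.Agent.N798.HW
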