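import Pool.Agent.N798.H.Stm2

set_option autoImplicit false

/-!
Project HW (helper798): prime values of almost all multiples along arbitrary sequences, restricted to arbitrary
families of sets `W n` of indices.  Statements of the steps.
-/

namespace Pool.Agent.N798.HW

open Finset MeasureTheory Filter Topology
open Pool.Agent.N798.HS (Sq)

/-- (MW) the main term over a large set of indices -/
def S_MW : Prop := ∀ (k : ℕ) (u : Fin k → ℕ → ℕ), (∀ i, Sq (u i)) → ∀ α : Fin k → ℝ, (∀ i, 0 < α i) →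
  ∀ ε : ℝ, 0 < ε → ∀ C : ℕ, ∃ n0 : ℕ, ∀ n : ℕ, n0 ≤ n → ∀ W : Finset ℕ, W ⊆ Icc 1 n →
    (n : ℝ) / (Real.log n) ^ C ≤ #W →
    |(∑ j ∈ W.filter (fun j => Nat.sqrt n < j), ∏ i, 1 / Real.log (α i * u i j)) / (#W / (Real.log n) ^ k) - 1| ≤ ε

/-- `q (n, k) = φ(k) + φ(n - k) / 2 + 1` -/
def q (n k : ℕ) : ℕ := Nat.totient k + Nat.totient (n - k) / 2 + 1

/-- the primes of the form `q (n, k)`, `1 ≤ k < n - 2` -/
def Qs (n : ℕ) : Finset ℕ := ((Ico 1 (n - 2)).image (q n)).filter Nat.Prime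

open Classical in
/-- (PP) for a positive proportion of the `n` there are many primes of the form `q (n, k)` -/
def S_PP : Prop := ∃ c : ℝ, 0 < c ∧ ∀ᶠ x : ℕ in atTop,
  c * x ≤ (#((Icc 32 x).filter fun n : ℕ => (n : ℝ) / Real.log n ^ 14 ≤ (#(Qs n) : ℝ)) : ℝ)

/-- (GP) the sequence `p_(m+1) - (m + 1)`, `m ≥ 1`, that is `1, 2, 3, 6, 7, 10, ...` -/
def S_GP : Prop := Sq fun m => Nat.nth Nat.Prime m - (m + 1)

end Pool.Agent.N798.HW
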